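import Mathlib
import Pool.Agent.H5.Creede

set_option autoImplicit false

namespace Pool.Agent.Results.MP_b3099b_gt.Regular

open Pool.Agent.H5.Creede

theorem result : ∃ (Y : Type) (_ : TopologicalSpace Y), T3Space Y ∧ Countable Y ∧
    FrechetUrysohnSpace Y ∧
    (∃ G : Set Y → ℕ → Set Y,
      (∀ F : Set Y, IsClosed F → ∀ n, IsOpen (G F n)) ∧
      (∀ F : Set Y, IsClosed F → ⋂ n, G F n = F) ∧
      (∀ F K : Set Y, IsClosed F → IsClosed K → F ⊆ K → ∀ n, G F n ⊆ G K n)) ∧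
    ∀ (X : Type) [TopologicalSpace X] [FirstCountableTopology X] (f : X → Y),
      ¬ (Continuous f ∧ IsClosedMap f ∧ Function.Surjective f) := by
  obtain ⟨X, 𝓙, h1, h2, h3⟩ := simon
  have : Nonempty (Y X 𝓙) := ⟨.top⟩
  have := regular (X := X) h2
  exact ⟨Y X 𝓙, inferInstance, ⟨⟩, inferInstance, frechet fun T a b => (h3 T a b).1, semistrat _,
    fun Z _ _ f h => not_image h1 (fun T a b => (h3 T a b).2) Z f h.1 h.2.1 h.2.2⟩

end Pool.Agent.Results.MP_b3099b_gt.Regular
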